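import Pool.Agent.KQT.Fin

set_option autoImplicit false

/-!
# The maximal coefficients of mean `p`-valent functions: exact order, uniformly in `n` and `p`

The definitions `nval`, `MeanValent`, `coef`, `mu`, `S`, `A` are in `Pool/Agent/MPV/Defs.lean`.
-/

namespace Pool.Agent.Results.MP_a1ed50_an.UniformOrder

/-- There are `c, C > 0` such that for all `1/4 ≤ p < 1` and all `n ≥ 2`, with
`s = p - 1/4 + 1/log n`, `c s^(-1/2) n^(2p-1) ≤ A_n^{(p)} ≤ C s^(-1/2) n^(2p-1)`. -/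
theorem result : ∃ c C : ℝ, 0 < c ∧ 0 < C ∧ ∀ p : ℝ, 1 / 4 ≤ p → p < 1 → ∀ n : ℕ, 2 ≤ n →
    ENNReal.ofReal (c / Real.sqrt (p - 1 / 4 + 1 / Real.log n) * (n : ℝ) ^ (2 * p - 1)) ≤
      MPV.A p n ∧
    MPV.A p n ≤
      ENNReal.ofReal (C / Real.sqrt (p - 1 / 4 + 1 / Real.log n) * (n : ℝ) ^ (2 * p - 1)) :=
  KQT.final

end Pool.Agent.Results.MP_a1ed50_an.UniformOrder
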