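import Pool.Agent.MQK.Kfin

set_option autoImplicit false

/-!
# The maximal coefficients of mean `p`-valent functions, `1/4 < p < 1`: a lower bound for `K_p`

The definitions `nval`, `MeanValent`, `coef`, `mu`, `S`, `A` are in `Pool/Agent/MPV/Defs.lean`.
-/

open Filter Topology

namespace Pool.Agent.Results.MP_a1ed50_an.ValueBelowOne

/-- For `1/4 < p < 1` there is `c > 4^p / Γ(2p)` with `A_n^{(p)} ≥ c n^(2p-1)` for all large `n`. -/
theorem result (p : ℝ) (hp : 1 / 4 < p) (hp1 : p < 1) :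
    ∃ c : ℝ, (4 : ℝ) ^ p / Real.Gamma (2 * p) < c ∧
      ∀ᶠ n : ℕ in atTop, ENNReal.ofReal (c * (n : ℝ) ^ (2 * p - 1)) ≤ MPV.A p n :=
  MQK.gap hp hp1

end Pool.Agent.Results.MP_a1ed50_an.ValueBelowOne
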