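import Pool.Agent.KON.Fin

set_option autoImplicit false

/-!
# The maximal coefficients of mean `1`-valent functions: `A_n^{(1)} ≥ (1 + 10⁻⁵) n` for all `n ≥ 2`

The definitions `nval`, `MeanValent`, `coef`, `mu`, `S`, `A` are in `Pool/Agent/MPV/Defs.lean`.
-/

namespace Pool.Agent.Results.MP_a1ed50_an.ValueOne

/-- For `p = 1` every maximal coefficient `A_n^{(1)}`, `n ≥ 2`, is at least `(1 + 10⁻⁵) n`. -/
theorem result (n : ℕ) (hn : 2 ≤ n) :
    ENNReal.ofReal ((1 + 1 / 100000) * n) ≤ MPV.A 1 n :=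
  KON.main hn

end Pool.Agent.Results.MP_a1ed50_an.ValueOne
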